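import Pool.Agent.TH129.AVC.Law
import Pool.Agent.TH129.AVC.Ht
import Pool.Agent.TH129.AVC.Tfae

/-!
# The rank conjecture for abelian varieties as a finite local-global counting law

Let `K` be a number field and `A` an abelian variety over `K` of dimension `g`, embedded in a projective
space, `E` a set of homogeneous equations of `A` with coefficients in the ring of integers. Let `N(X)`
be the number of points of `A(K)` of height at most `X` (the multiplicative height relative to `K` in the
given projective space). Let `S` be a finite set of primes such that `A` has good reduction outside `S`;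
for `v` outside `S` let `q_v` be the number of elements of the residue field `k_v` and `#A(k_v)` the
number of points of the reduction. For real `c` put `w(u) = cos (c u) / Γ(1 + u)` and

`Π_c(X) = ∏_{v ∉ S, q_v ≤ e^X} (#A(k_v) / q_v^g) ^ w(log q_v / log X)`,

a finite product. Let `F` be a continuation of the `L`-function `L(A, s)` to `s = 1` along the real axis,
meromorphic at the real points `x ≥ 1` (in particular any continuation to `ℂ`). It is shown that for
every `c > π/2`

`N(X)² / Π_c(X) ≍ (log X) ^ (rank A(K) - ord_{s=1} F)`   (`X → ∞`),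

without any hypothesis on the zeros of `F`. So the conjecture of Birch and Swinnerton-Dyer on the rank
holds for `A` if and only if `N(X)² ≍ Π_c(X)`; neither the rank nor the `L`-function occurs in this law.
Even `log (N(X)² / Π_c(X)) = o(log log X)` along a single sequence `X → ∞` is enough.

What is used about `A` is stated in the hypotheses: the theorem of Mordell and Weil (`A(K)` is finitely
generated), the theorem of the cube for the height (`Cube`; it holds for every projective embedding), the
theorem of Weil on the numbers of points of the reductions outside `S` (`IsModel.good`), and that the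
Euler factors at the primes of `S` are real polynomials with constant term `1` without roots in the disc
of radius `1 / q_v` (`IsModel.bad`).

Proof. By the theorem of the cube `h(P) + h(-P)` is quadratic up to a bounded error, so by the count of
lattice points in ellipsoids (imported) the number of points with `h(P) + h(-P) ≤ T` is asymptotic to
`κ T^(rank/2)`; as `h(2P + R) ≥ h(P) + h(-P) - O(1)` for the finitely many representatives `R` modulo
`2 A(K)`, the same order of growth holds for `h` itself. The smoothed sum over all prime powers is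
`m log log X + O(1)` by the rotated law for general Euler products (imported, a run-time module of
helper652); the passage to the finite product over the primes is as in the case of elliptic curves: the
cubes and higher powers contribute `O(∑ q_v^(-3/2))`, the squares
`O(∑ (q_v^(-1-1/T) - q_v^(-1-2/T))) = O(1)` (`T = log X`) by the pole of the Dedekind zeta function, the
primes with `q_v > e^X` contribute `o(1)`, and the local sum at `v ∉ S` is `-log (#A(k_v) / q_v^g)`.
-/

set_option autoImplicit false

namespace Pool.Agent.Results.MP_1d384c_nt.CountingLaw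

open Filter Topology Classical NumberField IsDedekindDomain
open scoped LinearAlgebra.Projectivization

section

variable {n : ℕ} {K : Type} [Field K] [NumberField K]

/-- The number `q_v` of elements of the residue field of the prime `v`. -/
noncomputable def resCard (v : HeightOneSpectrum (𝓞 K)) : ℝ := (Ideal.absNorm v.asIdeal : ℝ)

/-- The number of the nonzero solutions of the equations `E` with coordinates in the finite field `κ`
(for a homomorphism from the ring of integers to `κ`). For homogeneous equations it is `#κ - 1` times the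
number of points over `κ` of the projective scheme defined by `E`. -/
noncomputable def solutions (E : Set (MvPolynomial (Fin n) (𝓞 K))) {κ : Type} [Field κ]
    (φ : 𝓞 K →+* κ) : ℕ :=
  Nat.card {u : Fin n → κ // u ≠ 0 ∧ ∀ f ∈ E, MvPolynomial.eval₂ φ u f = 0}

/-- The eigenvalues of Frobenius at `v` (theorem of Weil): complex numbers `α_1, …, α_{2g}` of absolute
value `√q_v` such that for every finite extension `κ` of the residue field of `v`, of degree `e`, the
number of points over `κ` is `∏ (1 - α_j ^ e)`. -/
def IsFrobenius (E : Set (MvPolynomial (Fin n) (𝓞 K))) (g : ℕ) (v : HeightOneSpectrum (𝓞 K))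
    (α : Fin (2 * g) → ℂ) : Prop :=
  (∀ j, ‖α j‖ = √ (resCard v)) ∧
    ∀ (κ : Type) [Field κ] [Finite κ] (φ : 𝓞 K →+* κ) (e : ℕ), RingHom.ker φ = v.asIdeal →
      Nat.card κ = Ideal.absNorm v.asIdeal ^ e →
      (solutions E φ : ℂ) = ((resCard v : ℂ) ^ e - 1) * ∏ j, (1 - α j ^ e)

/-- `E` is a model over the ring of integers of an abelian variety of dimension `g` with good reduction
outside the finite set `S`, and `B_v(q_v^{-s})⁻¹` are the factors of its `L`-function: for `v` outside
`S`, `B_v(z) = ∏ (1 - α_j z)` with the eigenvalues of Frobenius; for `v` in `S`, `B_v` is a real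
polynomial with constant term `1` whose complex roots have absolute values greater than `1 / q_v`. -/
structure IsModel (E : Set (MvPolynomial (Fin n) (𝓞 K))) (g : ℕ)
    (S : Set (HeightOneSpectrum (𝓞 K))) (B : HeightOneSpectrum (𝓞 K) → Polynomial ℝ) : Prop where
  fin : S.Finite
  good : ∀ v, v ∉ S → ∃ α : Fin (2 * g) → ℂ, IsFrobenius E g v α ∧
    ∀ z : ℂ, ((B v).map (algebraMap ℝ ℂ)).eval z = ∏ j, (1 - α j * z)
  const : ∀ v, (B v).coeff 0 = 1
  bad : ∀ v ∈ S, ∀ ρ : ℂ, ((B v).map (algebraMap ℝ ℂ)).IsRoot ρ → (resCard v)⁻¹ < ‖ρ‖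

/-- The Euler product `∏_v B_v(q_v^{-s})⁻¹`. -/
noncomputable def LFunction (B : HeightOneSpectrum (𝓞 K) → Polynomial ℝ) (s : ℂ) : ℂ :=
  ∏' v, (((B v).map (algebraMap ℝ ℂ)).eval ((resCard v : ℂ) ^ (-s)))⁻¹

/-- The set `A(K)` of the points with coordinates in `K`. -/
def points (E : Set (MvPolynomial (Fin n) (𝓞 K))) : Set (ℙ K (Fin n → K)) :=
  {P | ∀ f ∈ E, MvPolynomial.aeval P.rep f = 0}

/-- The number `N(X)` of points in `A(K)` of multiplicative height (relative to `K`) at most `X`. -/
noncomputable def pointsUpTo (E : Set (MvPolynomial (Fin n) (𝓞 K))) (X : ℝ) : ℕ :=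
  Nat.card {P : ℙ K (Fin n → K) // P ∈ points E ∧ P.mulHeight ≤ X}

/-- The number `#A(k_v)` of points over the residue field `k_v` of `v`: the number of the nonzero
solutions of the equations in `k_v` divided by `q_v - 1`. -/
noncomputable def resPoints (E : Set (MvPolynomial (Fin n) (𝓞 K)))
    (v : HeightOneSpectrum (𝓞 K)) : ℝ :=
  (Nat.card {u : Fin n → 𝓞 K ⧸ v.asIdeal // u ≠ 0 ∧
    ∀ f ∈ E, MvPolynomial.eval₂ (Ideal.Quotient.mk v.asIdeal) u f = 0} : ℝ) / (resCard v - 1)

/-- `Π_c(X)`: the product over the primes `v` outside `S` with `q_v ≤ e^X` of the powers of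
`#A(k_v) / q_v^g` with exponents `cos (c u) / Γ(1 + u)`, `u = log q_v / log X`. -/
noncomputable def localProduct (E : Set (MvPolynomial (Fin n) (𝓞 K))) (g : ℕ)
    (S : Set (HeightOneSpectrum (𝓞 K))) (c X : ℝ) : ℝ :=
  ∏ᶠ v ∈ {v : HeightOneSpectrum (𝓞 K) | v ∉ S ∧ resCard v ≤ Real.exp X},
    (resPoints E v / resCard v ^ g) ^
      (Real.cos (c * (Real.log (resCard v) / Real.log X)) /
        Real.Gamma (1 + Real.log (resCard v) / Real.log X))

/-- The relation of the theorem of the cube for a function `h` on an abelian group, up to a bounded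
error. -/
def Cube {A : Type} [AddCommGroup A] (h : A → ℝ) : Prop := ∃ C : ℝ, ∀ P Q R : A,
  |h (P + Q + R) - h (P + Q) - h (Q + R) - h (P + R) + h P + h Q + h R| ≤ C

variable {E : Set (MvPolynomial (Fin n) (𝓞 K))} {g : ℕ} {S : Set (HeightOneSpectrum (𝓞 K))}
  {B : HeightOneSpectrum (𝓞 K) → Polynomial ℝ}

theorem IsModel.local (h : IsModel E g S B) : TH129.AVC.IsLocal E g S B :=
  ⟨h.fin, fun v hv => by
    obtain ⟨α, ⟨h1, h2⟩, h3⟩ := h.good v hv
    refine ⟨α, ⟨h1, fun κ _ _ φ e hφ hκ => ?_⟩, h3⟩
    have h4 := h2 κ φ e hφ hκ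
    have h5 : (resCard v : ℂ) = ((Ideal.absNorm v.asIdeal : ℕ) : ℂ) := by
      unfold resCard
      push_cast
      rfl
    rw [h5] at h4
    exact h4, h.const, h.bad⟩

theorem finite_set (S : Set (HeightOneSpectrum (𝓞 K))) (X : ℝ) :
    {v : HeightOneSpectrum (𝓞 K) | v ∉ S ∧ resCard v ≤ Real.exp X}.Finite :=
  (TH652.COL.nv_finite (Real.exp X)).subset fun _ hv => hv.2

theorem localProduct_pos (h : IsModel E g S B) (c X : ℝ) : 0 < localProduct E g S c X := by
  unfold localProduct
  rw [finprod_mem_eq_finite_toFinset_prod _ (finite_set S X)]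
  exact Finset.prod_pos fun v hv => Real.rpow_pos_of_pos
    (h.local.loc_good ((finite_set S X).mem_toFinset.1 hv).1).1 _

theorem log_localProduct (h : IsModel E g S B) (c X : ℝ) :
    Real.log (localProduct E g S c X) = TH129.AVC.avS E g S c X := by
  unfold localProduct TH129.AVC.avS
  have hpos : ∀ v ∈ (finite_set S X).toFinset, 0 < resPoints E v / resCard v ^ g := fun v hv =>
    (h.local.loc_good ((finite_set S X).mem_toFinset.1 hv).1).1
  rw [finprod_mem_eq_finite_toFinset_prod _ (finite_set S X)]
  have h1 : {v : HeightOneSpectrum (𝓞 K) | v ∉ S ∧ TH652.COL.nv v ≤ Real.exp X} =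
      {v : HeightOneSpectrum (𝓞 K) | v ∉ S ∧ resCard v ≤ Real.exp X} := rfl
  rw [h1, finsum_mem_eq_finite_toFinset_sum _ (finite_set S X),
    Real.log_prod (fun v hv => (Real.rpow_pos_of_pos (hpos v hv) _).ne')]
  refine Finset.sum_congr rfl fun v hv => ?_
  rw [Real.log_rpow (hpos v hv)]
  rfl

end

theorem points_bounds {n : ℕ} {K : Type} [Field K] [NumberField K]
    {E : Set (MvPolynomial (Fin n) (𝓞 K))} {A : Type} [AddCommGroup A] (hA : AddGroup.FG A)
    (e : A ≃ points E) (hcube : Cube fun P : A => (e P).1.logHeight) :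
    ∃ a b : ℝ, 0 < a ∧ 0 < b ∧ ∀ᶠ X : ℝ in atTop,
      a * Real.log X ^ (Module.finrank ℤ A : ℝ) ≤ (pointsUpTo E X : ℝ) ^ 2 ∧
      (pointsUpTo E X : ℝ) ^ 2 ≤ b * Real.log X ^ (Module.finrank ℤ A : ℝ) := by
  have hfin : ∀ T : ℝ, {P : A | (e P).1.logHeight ≤ T}.Finite := by
    intro T
    have h1 := TH129.AVC.northcott_log (ι := Fin n) (K := K) T
    exact Set.Finite.of_injOn (f := fun P : A => (e P).1) (fun P hP => hP)
      (fun P _ Q _ h => e.injective (Subtype.ext h)) h1
  obtain ⟨a, b, ha, hb, h⟩ := TH129.AVC.growth_sq hA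
    (h := fun P : A => (e P).1.logHeight) (fun P => Projectivization.logHeight_nonneg _) hcube hfin
  refine ⟨a, b, ha, hb, ?_⟩
  filter_upwards [Real.tendsto_log_atTop.eventually h, eventually_gt_atTop 0] with X h1 hX
  have h2 : Nat.card {P : A // (e P).1.logHeight ≤ Real.log X} = pointsUpTo E X := by
    unfold pointsUpTo
    refine Nat.card_congr ⟨fun P => ⟨(e P.1).1, (e P.1).2, ?_⟩,
      fun Q => ⟨e.symm ⟨Q.1, Q.2.1⟩, ?_⟩, fun P => ?_, fun Q => ?_⟩
    · have h3 := P.2
      rw [Projectivization.logHeight_eq_log_mulHeight] at h3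
      exact (Real.log_le_log_iff (Projectivization.mulHeight_pos _) hX).1 h3
    · rw [Equiv.apply_symm_apply, Projectivization.logHeight_eq_log_mulHeight]
      exact Real.log_le_log (Projectivization.mulHeight_pos _) Q.2.2
    · apply Subtype.ext
      simp
    · apply Subtype.ext
      simp
  rw [h2] at h1
  exact h1

/-- **The rank conjecture for abelian varieties over number fields is a finite local-global counting
law.** -/
theorem result (K : Type) [Field K] [NumberField K] (n g : ℕ)
    (E : Set (MvPolynomial (Fin n) (𝓞 K))) (S : Set (HeightOneSpectrum (𝓞 K)))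
    (B : HeightOneSpectrum (𝓞 K) → Polynomial ℝ) (hE : IsModel E g S B)
    (A : Type) [AddCommGroup A] (hA : AddGroup.FG A) (e : A ≃ points E)
    (hcube : Cube fun P : A => (e P).1.logHeight)
    (F : ℂ → ℂ) (hmer : ∀ x : ℝ, 1 ≤ x → MeromorphicAt F (x : ℂ)) (σ : ℝ)
    (hF : ∀ s : ℂ, σ < s.re → F s = LFunction B s) :
    ∃ m : ℤ, meromorphicOrderAt F 1 = m ∧ ∀ c : ℝ, Real.pi / 2 < c →
      (∃ a b : ℝ, 0 < a ∧ 0 < b ∧ ∀ᶠ X : ℝ in atTop,
        a * Real.log X ^ ((Module.finrank ℤ A : ℝ) - m) ≤
          (pointsUpTo E X : ℝ) ^ 2 / localProduct E g S c X ∧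
        (pointsUpTo E X : ℝ) ^ 2 / localProduct E g S c X ≤
          b * Real.log X ^ ((Module.finrank ℤ A : ℝ) - m)) ∧
      List.TFAE [
        meromorphicOrderAt F 1 = ((Module.finrank ℤ A : ℤ) : WithTop ℤ),
        ∃ a b : ℝ, 0 < a ∧ 0 < b ∧ ∀ᶠ X : ℝ in atTop,
          a * localProduct E g S c X ≤ (pointsUpTo E X : ℝ) ^ 2 ∧
          (pointsUpTo E X : ℝ) ^ 2 ≤ b * localProduct E g S c X,
        ∃ X : ℕ → ℝ, Tendsto X atTop atTop ∧
          Tendsto (fun k => Real.log ((pointsUpTo E (X k) : ℝ) ^ 2 /
            localProduct E g S c (X k)) / Real.log (Real.log (X k))) atTop (𝓝 0)] := by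
  obtain ⟨m, hm, h⟩ := TH129.AVC.av_law hE.local hmer hF
  refine ⟨m, hm, fun c hc => ?_⟩
  obtain ⟨C, hC⟩ := h c hc
  obtain ⟨h1, h2⟩ := TH129.AVC.law_tfae' (N := fun X => (pointsUpTo E X : ℝ) ^ 2)
    (P := fun X => localProduct E g S c X) (r := Module.finrank ℤ A) (m := m)
    (fun X => localProduct_pos hE c X) (points_bounds hA e hcube)
    ⟨C, by
      filter_upwards [hC] with X hX
      rw [log_localProduct hE]
      exact hX⟩
  refine ⟨h1, ?_⟩
  have h3 : (meromorphicOrderAt F 1 = ((Module.finrank ℤ A : ℤ) : WithTop ℤ)) ↔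
      (Module.finrank ℤ A : ℝ) = m := by
    rw [hm]
    constructor
    · intro h4
      have h5 : m = (Module.finrank ℤ A : ℤ) := by exact_mod_cast h4
      rw [h5]
      simp
    · intro h4
      have h5 : ((Module.finrank ℤ A : ℤ) : ℝ) = (m : ℝ) := by simpa using h4
      have h6 : (Module.finrank ℤ A : ℤ) = m := by exact_mod_cast h5
      rw [h6]
  rw [h3]
  exact h2

end Pool.Agent.Results.MP_1d384c_nt.CountingLaw
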