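import Pool.Agent.TH270.SH.Inc
import Pool.Agent.Results.MP_1d384c_nt.CountingLaw

/-!
# The rank conjecture for abelian varieties and zero-free sectors as a local-global counting law

Let `K` be a number field and `A` an abelian variety over `K` of dimension `g`, embedded in a projective
space (the setting and the notation are those of `CountingLaw`), `N(X)` the number of points of `A(K)` of
height at most `X`, `S` a finite set of primes containing those of bad reduction. For `ρ' > ρ > 1` put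

`Π_ρ(X) = ∏_{v ∉ S, q_v ≤ exp ((log X)^ρ')} (#A(k_v) / q_v^g) ^ w_ρ(log q_v / log X)`,

`w_ρ(u) = (2π)⁻¹ ∫ Re (exp (z - u z^(1/ρ)) / z) dt`, `z = 1 + i t`. It is shown, without any assumption on
the continuation of `L(A, s)`, that

* if `N(X)² ≍ Π_ρ(X)`, then `L(A, s)` extends to a holomorphic function without zeros in the sector
  `|arg (s - 1)| < π / (2ρ)`, and `|L(A, 1 + x)| ≍ x^rank` for `x → 0+`;
* if this holds for all `ρ > 1`, the same is true with the half plane `Re s > 1`.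

If `L(A, s)` is known to extend to a function `F` which is holomorphic for `Re s > 1` and at `s = 1`, then
`N(X)² ≍ Π_ρ(X)` if and only if `log (N(X)² / Π_ρ(X)) = o(log log X)`, if and only if the order of `F` at
`s = 1` is the rank and `F` has no zeros in the sector; and `N(X)² ≍ Π_ρ(X)` for all `ρ > 1` if and only if
the order is the rank and `F` has no zeros with `Re s > 1`.
-/

set_option autoImplicit false

namespace Pool.Agent.Results.MP_1d384c_nt.AbelianSectorLaw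

open Filter Topology NumberField IsDedekindDomain
open scoped LinearAlgebra.Projectivization
open Pool.Agent.Results.MP_1d384c_nt.CountingLaw (resCard IsModel LFunction points pointsUpTo resPoints
  Cube)

section definitions

variable {n : ℕ} {K : Type} [Field K] [NumberField K]

/-- The weight `w_ρ(u) = (2π)⁻¹ ∫ Re (exp (z - u z^(1/ρ)) / z) dt`, `z = 1 + i t`. -/
noncomputable def weight (ρ u : ℝ) : ℝ :=
  (2 * Real.pi)⁻¹ * ∫ t : ℝ, (Complex.exp ((1 + t * Complex.I) -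
    u * (1 + t * Complex.I) ^ ((ρ⁻¹ : ℝ) : ℂ)) / (1 + t * Complex.I)).re

/-- `Π_ρ(X)`: the product over the primes `v` outside `S` with `q_v ≤ exp ((log X)^ρ')` of the powers of
`#A(k_v) / q_v^g` with exponents `w_ρ(log q_v / log X)`. -/
noncomputable def sectorProduct (E : Set (MvPolynomial (Fin n) (𝓞 K))) (g : ℕ)
    (S : Set (HeightOneSpectrum (𝓞 K))) (ρ ρ' X : ℝ) : ℝ :=
  ∏ᶠ v ∈ {v : HeightOneSpectrum (𝓞 K) | v ∉ S ∧ resCard v ≤ Real.exp (Real.log X ^ ρ')},
    (resPoints E v / resCard v ^ g) ^ weight ρ (Real.log (resCard v) / Real.log X)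

/-- The law `N(X)² ≍ Π_ρ(X)`. -/
def Law (E : Set (MvPolynomial (Fin n) (𝓞 K))) (g : ℕ) (S : Set (HeightOneSpectrum (𝓞 K)))
    (ρ ρ' : ℝ) : Prop :=
  ∃ a b : ℝ, 0 < a ∧ 0 < b ∧ ∀ᶠ X : ℝ in atTop,
    a * sectorProduct E g S ρ ρ' X ≤ (pointsUpTo E X : ℝ) ^ 2 ∧
    (pointsUpTo E X : ℝ) ^ 2 ≤ b * sectorProduct E g S ρ ρ' X

/-- The sector `|arg (s - 1)| < π / (2ρ)`. -/
def Sector (ρ : ℝ) : Set ℂ := {s | s ≠ 1 ∧ |(s - 1).arg| < Real.pi / (2 * ρ)}

/-- `G` is holomorphic and has no zeros on the union of `U` and the half plane `Re s > 3/2`, where it is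
equal to the Euler product. -/
def ZeroFreeContinuation (B : HeightOneSpectrum (𝓞 K) → Polynomial ℝ) (U : Set ℂ) (G : ℂ → ℂ) : Prop :=
  (∀ s : ℂ, s ∈ U ∨ 3 / 2 < s.re → DifferentiableAt ℂ G s ∧ G s ≠ 0) ∧
    ∀ s : ℂ, 3 / 2 < s.re → G s = LFunction B s

/-- `|G(1 + x)| ≍ x^r` for `0 < x ≤ 1`. -/
def HasSize (G : ℂ → ℂ) (r : ℝ) : Prop :=
  ∃ a b : ℝ, 0 < a ∧ 0 < b ∧ ∀ x : ℝ, 0 < x → x ≤ 1 →
    a * x ^ r ≤ ‖G (1 + x)‖ ∧ ‖G (1 + x)‖ ≤ b * x ^ r

end definitions

section proofs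

open Pool.Agent.TH270.SH Pool.Agent.TH942.ES
open Pool.Agent.TH942.SL (Sect sect_re sect_real)
open Pool.Agent.H921R2.TatePole (nm two_le_nm)

variable {n : ℕ} {K : Type} [Field K] [NumberField K] {E : Set (MvPolynomial (Fin n) (𝓞 K))} {g : ℕ}
  {S : Set (HeightOneSpectrum (𝓞 K))} {B : HeightOneSpectrum (𝓞 K) → Polynomial ℝ}
  {ρ ρ' m : ℝ} {F : ℂ → ℂ}

theorem eul (hE : IsModel E g S B) : Eul (inc S B) (2 * g) 1 := by
  refine inc_eul hE.const (fun v hv => ?_) fun v hv ρ hρ => ?_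
  · obtain ⟨α, -, h1⟩ := hE.local.good v hv
    exact TH652.COL.good_deg h1
  · obtain ⟨α, hα, hp⟩ := hE.local.good v hv
    have h1 := hα.root hp hρ
    have h2 : (√ (TH652.COL.nv v))⁻¹ = (nm v : ℝ) ^ ((1 : ℝ) / 2 - 1) := by
      rw [Real.sqrt_eq_rpow, ← Real.rpow_neg (TH129.AVC.nv_pos v).le]
      have h3 : TH652.COL.nv v = (nm v : ℝ) := rfl
      rw [h3]
      norm_num
    rwa [h2] at h1

/-- the local factor at a prime of good reduction -/
theorem eval_good (hE : IsModel E g S B) {v : HeightOneSpectrum (𝓞 K)} (hv : v ∉ S) :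
    0 < resPoints E v / resCard v ^ g ∧
    (B v).eval ((nm v : ℝ) ^ (-(1 : ℝ))) = resPoints E v / resCard v ^ g := by
  have hr := fun (ρ : ℂ) (hρ : ((B v).map (algebraMap ℝ ℂ)).IsRoot ρ) => hE.local.root v hρ
  obtain ⟨h1, h2⟩ := hE.local.loc_good hv
  have h3 := TH129.AVC.loc_eq (q := TH652.COL.nv) (B := B) (s₀ := 1) (TH129.AVC.nv_pos v)
    (hE.const v) hr
  have h4 := TH129.AVC.eval_pos (q := TH652.COL.nv) (B := B) (s₀ := 1) (TH129.AVC.nv_pos v)
    (hE.const v) hr
  refine ⟨h1, ?_⟩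
  rw [h2, neg_inj] at h3
  exact (Real.log_injOn_pos (Set.mem_Ioi.2 h1) (Set.mem_Ioi.2 h4) h3).symm

theorem finite_set (S : Set (HeightOneSpectrum (𝓞 K))) (Y : ℝ) :
    {v : HeightOneSpectrum (𝓞 K) | v ∉ S ∧ resCard v ≤ Y}.Finite :=
  (TH652.COL.nv_finite Y).subset fun _ hv => hv.2

theorem sectorProduct_pos (hE : IsModel E g S B) (ρ ρ' X : ℝ) : 0 < sectorProduct E g S ρ ρ' X := by
  unfold sectorProduct
  rw [finprod_mem_eq_finite_toFinset_prod _ (finite_set S _)]
  exact Finset.prod_pos fun v hv => Real.rpow_pos_of_pos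
    (eval_good hE ((finite_set S _).mem_toFinset.1 hv).1).1 _

theorem log_sectorProduct (hE : IsModel E g S B) (ρ ρ' X : ℝ) :
    Real.log (sectorProduct E g S ρ ρ' X) = SrE nmK (alB (inc S B) (2 * g) 1) ρ ρ' X := by
  have hpos : ∀ v ∈ (finite_set S (Real.exp (Real.log X ^ ρ'))).toFinset,
      0 < resPoints E v / resCard v ^ g := fun v hv =>
    (eval_good hE ((finite_set S _).mem_toFinset.1 hv).1).1
  have e4 : SrE nmK (alB (inc S B) (2 * g) 1) ρ ρ' X =
      ∑ v ∈ ((eul hE).sys.fin_le (Real.exp (Real.log X ^ ρ'))).toFinset,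
        Pool.Agent.TH942.SL.wml ρ⁻¹ (Real.log (nmK v) / Real.log X) *
          cv nmK (alB (inc S B) (2 * g) 1) v :=
    finsum_mem_eq_finite_toFinset_sum
      (fun v => Pool.Agent.TH942.SL.wml ρ⁻¹ (Real.log (nmK v) / Real.log X) *
        cv nmK (alB (inc S B) (2 * g) 1) v) ((eul hE).sys.fin_le (Real.exp (Real.log X ^ ρ')))
  unfold sectorProduct
  rw [finprod_mem_eq_finite_toFinset_prod _ (finite_set S _),
    Real.log_prod (fun v hv => (Real.rpow_pos_of_pos (hpos v hv) _).ne'), e4]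
  have h1 : (finite_set S (Real.exp (Real.log X ^ ρ'))).toFinset ⊆
      ((eul hE).sys.fin_le (Real.exp (Real.log X ^ ρ'))).toFinset := by
    intro v hv
    have h2 := (finite_set S _).mem_toFinset.1 hv
    exact ((eul hE).sys.fin_le _).mem_toFinset.2 h2.2
  rw [← Finset.sum_subset h1]
  · refine Finset.sum_congr rfl fun v hv => ?_
    rw [Real.log_rpow (hpos v hv), (eul hE).cv_eq,
      inc_not_mem ((finite_set S _).mem_toFinset.1 hv).1,
      (eval_good hE ((finite_set S _).mem_toFinset.1 hv).1).2]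
    rfl
  · intro v hv hv'
    have h2 : v ∈ S := by
      by_contra h3
      exact hv' ((finite_set S _).mem_toFinset.2 ⟨h3, ((eul hE).sys.fin_le _).mem_toFinset.1 hv⟩)
    rw [(eul hE).cv_eq, inc_mem h2]
    simp

theorem LFunction_eq (B : HeightOneSpectrum (𝓞 K) → Polynomial ℝ) (s : ℂ) :
    LFunction B s = LB B s := by
  unfold LFunction LB
  refine tprod_congr fun v => ?_
  have h1 : (resCard v : ℂ) = (nm v : ℂ) := by
    unfold resCard nm
    push_cast
    rfl
  rw [h1]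

theorem bad_root (hE : IsModel E g S B) : ∀ v ∈ hE.fin.toFinset, ∀ ρ : ℂ,
    ((B v).map (algebraMap ℝ ℂ)).IsRoot ρ → (nm v : ℝ) ^ (-(1 : ℝ)) < ‖ρ‖ := fun v hv ρ hρ => by
  have h1 := hE.bad v (hE.fin.mem_toFinset.1 hv) ρ hρ
  rw [Real.rpow_neg_one]
  exact h1

/-- the complete product for `Re s > 3/2` -/
theorem complete (hE : IsModel E g S B) {s : ℂ} (hs : 3 / 2 < s.re) :
    LFunction B s = LB (inc S B) s * (bd hE.fin.toFinset B s)⁻¹ := by
  rw [LFunction_eq]
  exact full_eq (eul hE) (fun v => hE.fin.mem_toFinset) (by norm_num; exact hs)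

theorem bd_ne' (hE : IsModel E g S B) {s : ℂ} (hs : 1 ≤ s.re) : bd hE.fin.toFinset B s ≠ 0 :=
  bd_ne (bad_root hE) hs

/-- from the system to the `L`-function -/
theorem to_cont (hE : IsModel E g S B) {U : Set ℂ} (hU : ∀ s ∈ U, 0 < s.re) {G : ℂ → ℂ}
    (hG : ZF nmK (alB (inc S B) (2 * g) 1) U G) :
    ZeroFreeContinuation B {s | s - 1 ∈ U}
      (fun s => G (s - 1) * (bd hE.fin.toFinset B s)⁻¹) := by
  have hre : ∀ s : ℂ, (s - 1).re = s.re - 1 := fun s => by rw [Complex.sub_re, Complex.one_re]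
  constructor
  · intro s hs
    have h1 : 1 ≤ s.re := by
      rcases hs with hs | hs
      · have := hU _ hs
        rw [hre] at this
        linarith
      · linarith
    obtain ⟨e1, e2⟩ := hG.1 (s - 1) (hs.imp id fun h' => by
      rw [hre]
      linarith)
    exact ⟨(DifferentiableAt.comp (f := fun s : ℂ => s - 1) s e1 (by fun_prop)).mul
      ((bd_diff _ _ s).inv (bd_ne' hE h1)), mul_ne_zero e2 (inv_ne_zero (bd_ne' hE h1))⟩
  · intro s hs
    have h1 := hG.2 (s - 1) (by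
      rw [hre]
      linarith)
    simp only
    rw [h1, (eul hE).LE_eq, complete hE hs]
    have h2 : ((1 : ℝ) : ℂ) + (s - 1) = s := by
      push_cast
      ring
    rw [h2]

/-- the product of the factors at `S` is bounded near the point `1` on the real axis -/
theorem bd_bounds (hE : IsModel E g S B) : ∃ a b : ℝ, 0 < a ∧ 0 < b ∧ ∀ x : ℝ, 0 < x → x ≤ 1 →
    a ≤ ‖(bd hE.fin.toFinset B (1 + x))⁻¹‖ ∧ ‖(bd hE.fin.toFinset B (1 + x))⁻¹‖ ≤ b := by
  have hre : ∀ x : ℝ, ((1 : ℂ) + x).re = 1 + x := fun x => by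
    rw [Complex.add_re, Complex.one_re, Complex.ofReal_re]
  have hcont : ContinuousOn (fun x : ℝ => ‖(bd hE.fin.toFinset B (1 + x))⁻¹‖) (Set.Icc 0 1) := by
    refine ContinuousOn.norm (ContinuousOn.inv₀ ?_ fun x hx => bd_ne' hE ?_)
    · have h1 : Continuous fun x : ℝ => bd hE.fin.toFinset B (1 + x) :=
        (bd_diff hE.fin.toFinset B).continuous.comp (by fun_prop)
      exact h1.continuousOn
    · rw [hre]
      linarith [hx.1]
  obtain ⟨x₁, hx₁, h1⟩ := isCompact_Icc.exists_isMinOn (Set.nonempty_Icc.2 zero_le_one) hcont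
  obtain ⟨x₂, hx₂, h2⟩ := isCompact_Icc.exists_isMaxOn (Set.nonempty_Icc.2 zero_le_one) hcont
  have hp : ∀ x ∈ Set.Icc (0 : ℝ) 1, 0 < ‖(bd hE.fin.toFinset B (1 + x))⁻¹‖ := fun x hx =>
    norm_pos_iff.2 (inv_ne_zero (bd_ne' hE (by rw [hre]; linarith [hx.1])))
  exact ⟨_, _, hp x₁ hx₁, hp x₂ hx₂, fun x hx hx1 => ⟨h1 ⟨hx.le, hx1⟩, h2 ⟨hx.le, hx1⟩⟩⟩

theorem size_of (hE : IsModel E g S B) {G : ℂ → ℂ} (hG : Size G m) :
    HasSize (fun s => G (s - 1) * (bd hE.fin.toFinset B s)⁻¹) m := by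
  obtain ⟨a₁, b₁, h1, h2, h3⟩ := hG
  obtain ⟨a₂, b₂, h4, h5, h6⟩ := bd_bounds hE
  refine ⟨a₁ * a₂, b₁ * b₂, by positivity, by positivity, fun x hx hx1 => ?_⟩
  obtain ⟨e1, e2⟩ := h3 x hx hx1
  obtain ⟨e3, e4⟩ := h6 x hx hx1
  have hxm : 0 < x ^ m := Real.rpow_pos_of_pos hx m
  simp only [add_sub_cancel_left]
  rw [norm_mul]
  constructor
  · calc a₁ * a₂ * x ^ m = (a₁ * x ^ m) * a₂ := by ring
      _ ≤ _ := by gcongr
  · calc _ ≤ (b₁ * x ^ m) * b₂ := by gcongr
      _ = b₁ * b₂ * x ^ m := by ring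

/-- from a continuation of the `L`-function to the system -/
theorem con (hE : IsModel E g S B) (hd : ∀ s : ℂ, 1 < s.re → DifferentiableAt ℂ F s) {σ : ℝ}
    (he : ∀ s : ℂ, σ < s.re → F s = LFunction B s) :
    Con nmK (alB (inc S B) (2 * g) 1)
      (fun s => F ((1 : ℝ) + s) * bd hE.fin.toFinset B ((1 : ℝ) + s)) := by
  have h1 : ∀ s : ℂ, 3 / 2 < s.re → F s * bd hE.fin.toFinset B s = LB (inc S B) s := by
    refine agree_half (σ := max σ (3 / 2))
      (fun s hs => (hd s (by linarith)).mul (bd_diff _ _ s))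
      (fun s hs => ((eul hE).LB_diff (by norm_num; exact hs)).1) fun s hs => ?_
    have h2 : σ < s.re := (le_max_left _ _).trans_lt hs
    have h3 : 3 / 2 < s.re := (le_max_right _ _).trans_lt hs
    rw [he s h2, complete hE h3, mul_assoc, inv_mul_cancel₀ (bd_ne' hE (by linarith)), mul_one]
  refine (eul hE).con (F := fun s => F s * bd hE.fin.toFinset B s)
    (fun s hs => (hd s hs).mul (bd_diff _ _ s)) fun s hs => h1 s (by norm_num at hs; exact hs)

end proofs

/-- **The rank conjecture and zero-free sectors for abelian varieties over number fields.** -/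
theorem result (K : Type) [Field K] [NumberField K] (n g : ℕ)
    (E : Set (MvPolynomial (Fin n) (𝓞 K))) (S : Set (HeightOneSpectrum (𝓞 K)))
    (B : HeightOneSpectrum (𝓞 K) → Polynomial ℝ) (hE : IsModel E g S B)
    (A : Type) [AddCommGroup A] (hA : AddGroup.FG A) (e : A ≃ points E)
    (hcube : Cube fun P : A => (e P).1.logHeight) :
    -- a single law implies the continuation to the sector and the order of magnitude at `s = 1`
    (∀ ρ ρ' : ℝ, 1 < ρ → ρ < ρ' → Law E g S ρ ρ' →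
        ∃ G : ℂ → ℂ, ZeroFreeContinuation B (Sector ρ) G ∧ HasSize G (Module.finrank ℤ A)) ∧
    -- all laws together imply the continuation to the half plane `Re s > 1`
    ((∀ ρ ρ' : ℝ, 1 < ρ → ρ < ρ' → Law E g S ρ ρ') →
        ∃ G : ℂ → ℂ, ZeroFreeContinuation B {s | 1 < s.re} G ∧ HasSize G (Module.finrank ℤ A)) ∧
    -- the equivalences, if the `L`-function is known to be holomorphic for `Re s > 1` and at `s = 1`
    ∀ F : ℂ → ℂ, (∀ s : ℂ, 1 < s.re → DifferentiableAt ℂ F s) → AnalyticAt ℂ F 1 →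
      (∃ σ : ℝ, ∀ s : ℂ, σ < s.re → F s = LFunction B s) →
      (∀ ρ ρ' : ℝ, 1 < ρ → ρ < ρ' →
        List.TFAE [analyticOrderAt F 1 = Module.finrank ℤ A ∧ ∀ s ∈ Sector ρ, F s ≠ 0,
          Law E g S ρ ρ',
          Tendsto (fun X : ℝ => Real.log ((pointsUpTo E X : ℝ) ^ 2 / sectorProduct E g S ρ ρ' X) /
            Real.log (Real.log X)) atTop (𝓝 0)]) ∧
      ((∀ ρ ρ' : ℝ, 1 < ρ → ρ < ρ' → Law E g S ρ ρ') ↔
        analyticOrderAt F 1 = Module.finrank ℤ A ∧ ∀ s : ℂ, 1 < s.re → F s ≠ 0) := by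
  have hN := CountingLaw.points_bounds hA e hcube
  have hcmp := fun ρ ρ' : ℝ => Pool.Agent.TH270.SH.law_cmp
    (N := fun X => (pointsUpTo E X : ℝ) ^ 2) (P := fun X => sectorProduct E g S ρ ρ' X)
    (r := Module.finrank ℤ A) (fun X => sectorProduct_pos hE ρ ρ' X) hN
  have hlaw : ∀ ρ ρ' : ℝ, Law E g S ρ ρ' ↔ Pool.Agent.TH270.SH.Gr Pool.Agent.TH270.SH.nmK
      (Pool.Agent.TH270.SH.alB (Pool.Agent.TH270.SH.inc S B) (2 * g) 1) ρ ρ'
        (Module.finrank ℤ A) := by
    intro ρ ρ'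
    have h1 := (hcmp ρ ρ').1
    simp only [log_sectorProduct hE] at h1
    exact h1
  have hsec : ∀ ρ : ℝ, Sector ρ = {s : ℂ | s - 1 ∈ Pool.Agent.TH942.SL.Sect ρ} := fun ρ => by
    ext s
    simp only [Sector, Pool.Agent.TH942.SL.Sect, Set.mem_ofPred_eq, ne_eq, sub_eq_zero]
  refine ⟨fun ρ ρ' hρ hρ' hl => ?_, fun hl => ?_, fun F hd h0 he => ?_⟩
  · obtain ⟨G, h1, h2⟩ := Pool.Agent.TH270.SH.Gr.cont (eul hE).sys hρ hρ' ((hlaw ρ ρ').1 hl)
    refine ⟨_, ?_, size_of hE h2⟩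
    rw [hsec]
    exact to_cont hE (fun s hs => Pool.Agent.TH942.SL.sect_re hρ hs) h1
  · obtain ⟨G, h1, h2⟩ := Pool.Agent.TH270.SH.gr_all (eul hE).sys
      (m := (Module.finrank ℤ A : ℝ)) fun ρ ρ' hρ hρ' => (hlaw ρ ρ').1 (hl ρ ρ' hρ hρ')
    refine ⟨_, ?_, size_of hE h2⟩
    have h3 : {s : ℂ | 1 < s.re} = {s : ℂ | s - 1 ∈ {z : ℂ | 0 < z.re}} := by
      ext s
      simp only [Set.mem_ofPred_eq, Complex.sub_re, Complex.one_re, sub_pos]
    rw [h3]
    exact to_cont hE (fun s hs => hs) h1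
  · obtain ⟨σ, he⟩ := he
    have hc := con hE hd he
    set T := hE.fin.toFinset with hT
    have hbd0 : Pool.Agent.TH270.SH.bd T B 1 ≠ 0 := bd_ne' hE (by norm_num)
    have hprod : AnalyticAt ℂ (fun s => F s * Pool.Agent.TH270.SH.bd T B s) ((1 : ℝ) : ℂ) := by
      rw [Complex.ofReal_one]
      exact h0.mul ((Pool.Agent.TH270.SH.bd_diff T B).analyticAt 1)
    obtain ⟨ha, ho⟩ := Pool.Agent.TH270.SH.order_shift hprod
    have ho2 : analyticOrderAt (fun s => F s * Pool.Agent.TH270.SH.bd T B s) ((1 : ℝ) : ℂ) =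
        analyticOrderAt F 1 := by
      rw [Complex.ofReal_one]
      have h1 := analyticOrderAt_mul h0 ((Pool.Agent.TH270.SH.bd_diff T B).analyticAt 1)
      have h2 : analyticOrderAt (Pool.Agent.TH270.SH.bd T B) 1 = 0 :=
        ((Pool.Agent.TH270.SH.bd_diff T B).analyticAt 1).analyticOrderAt_eq_zero.2 hbd0
      rw [h2, add_zero] at h1
      exact h1
    rw [ho2] at ho
    -- zeros of `F` and of the product
    have hzero : ∀ s : ℂ, 1 ≤ s.re →
        (F s * Pool.Agent.TH270.SH.bd T B s ≠ 0 ↔ F s ≠ 0) := fun s hs => by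
      rw [mul_ne_zero_iff, and_iff_left (bd_ne' hE hs)]
    refine ⟨fun ρ ρ' hρ hρ' => ?_, ?_⟩
    · have key := Pool.Agent.TH270.SH.law_tfae (eul hE).sys hc ha hρ hρ' (Module.finrank ℤ A)
      have e1 : (analyticOrderAt F 1 = Module.finrank ℤ A ∧ ∀ s ∈ Sector ρ, F s ≠ 0) ↔
          (analyticOrderAt (fun s => F ((1 : ℝ) + s) * Pool.Agent.TH270.SH.bd T B ((1 : ℝ) + s)) 0 =
              Module.finrank ℤ A ∧
            ∀ s ∈ Pool.Agent.TH942.SL.Sect ρ,
              F ((1 : ℝ) + s) * Pool.Agent.TH270.SH.bd T B ((1 : ℝ) + s) ≠ 0) := by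
        rw [ho, hsec]
        refine and_congr_right fun _ => ⟨fun h4 s hs => ?_, fun h4 s hs => ?_⟩
        · have hre := Pool.Agent.TH942.SL.sect_re hρ hs
          rw [hzero _ (by rw [Complex.add_re, Complex.ofReal_re]; linarith)]
          refine h4 _ ?_
          rw [Set.mem_ofPred_eq, Complex.ofReal_one, add_sub_cancel_left]
          exact hs
        · have hre := Pool.Agent.TH942.SL.sect_re hρ hs
          rw [Complex.sub_re, Complex.one_re] at hre
          have h5 := h4 (s - 1) hs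
          rw [Complex.ofReal_one, add_sub_cancel] at h5
          exact (hzero s (by linarith)).1 h5
      tfae_have 1 ↔ 2 := by
        rw [e1, hlaw ρ ρ']
        exact key.out 0 1
      tfae_have 2 ↔ 3 := by
        have h6 := (hcmp ρ ρ').2
        rw [h6, hlaw ρ ρ']
        simp only [log_sectorProduct hE]
        exact key.out 1 2
      tfae_finish
    · have key := Pool.Agent.TH270.SH.law_all (eul hE).sys hc ha (Module.finrank ℤ A)
      rw [ho] at key
      simp only [hlaw]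
      rw [key]
      refine and_congr_right fun _ => ⟨fun h4 s hs => ?_, fun h4 s hs => ?_⟩
      · have h5 := h4 (s - 1) (by
          rw [Complex.sub_re, Complex.one_re]
          linarith)
        rw [Complex.ofReal_one, add_sub_cancel] at h5
        exact (hzero s hs.le).1 h5
      · rw [hzero _ (by rw [Complex.add_re, Complex.ofReal_re]; linarith)]
        refine h4 _ ?_
        rw [Complex.add_re, Complex.ofReal_re]
        linarith

end Pool.Agent.Results.MP_1d384c_nt.AbelianSectorLaw
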