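import Pool.Agent.TH943.CY.Cnt

/-!
Non-vanishing at `s = 1` of the L-functions of the prime twists, or of their constant twists, of the
Jacobians of the hyperelliptic curves `y ^ 2 = (x - 1) (x ^ ℓ - t)` over `k(t)`, for almost all primes.
-/

set_option autoImplicit false
set_option maxHeartbeats 1000000

open Polynomial

namespace Pool.Agent.Results.MP_1d384c_nt.CyclicPrimeTwists

/-- The closed points of the affine line over the field `F`: monic irreducible polynomials. -/
abbrev ClosedPt (F : Type) [Field F] : Type := {P : F[X] // P.Monic ∧ Irreducible P}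

section generic

variable {F : Type} [Field F]

open Classical in
/-- The quadratic character of the field `F[x] / (Q)` at the class of `h`. -/
noncomputable def quadChar (h Q : F[X]) : ℤ :=
  if Q ∣ h then 0 else if ∃ s : F[X], Q ∣ h - s ^ 2 then 1 else -1

/-- The degree of the closed point `Q` of the line over a field `F` of degree `d`. -/
noncomputable def ptDegree (d : ℕ) (Q : ClosedPt F) : ℕ := d * Q.1.natDegree

/-- The Euler factor `1 - χ T ^ n`, where `χ` is the value of the quadratic character of the residue
field of `Q` at `h`, and `n` is the degree of `Q`. -/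
noncomputable def ptFactor (h : F[X]) (d : ℕ) (Q : ClosedPt F) : PowerSeries ℤ :=
  1 - PowerSeries.C (quadChar h Q.1) * PowerSeries.X ^ ptDegree d Q

end generic

/-- The Euler product: its coefficient of index `n` is that of the product of the factors of degree
at most `n`. -/
noncomputable def eulerProduct {ι : Type} (d : ι → ℕ) (f : ι → PowerSeries ℤ) : PowerSeries ℤ :=
  PowerSeries.mk fun n => PowerSeries.coeff n (∏ᶠ (i : ι) (_ : d i ≤ n), f i)

/-- The greatest power of two dividing `n`. -/
def twoPart (n : ℕ) : ℕ := 2 ^ padicValNat 2 n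

section defs

variable {k : Type} [Field k]

/-- The residue field of the closed point `P` of the `t`-line. -/
def Res (P : ClosedPt k) : Type := AdjoinRoot P.1

noncomputable instance resField (P : ClosedPt k) : Field (Res P) :=
  @AdjoinRoot.instField k _ P.1 ⟨P.2.2⟩

/-- The value at `P` of a polynomial in `t`. -/
noncomputable def value (P : ClosedPt k) (g : k[X]) : Res P := AdjoinRoot.mk P.1 g

/-- The polynomial `D(t) (x - 1) (x ^ ℓ - t)` in `x` over the residue field of the closed point
`P`. -/
noncomputable def fibre (ℓ : ℕ) (D : k[X]) (P : ClosedPt k) : (Res P)[X] :=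
  C (value P D) * ((X - 1) * (X ^ ℓ - C (value P X)))

/-- The closed points of the `(t, x)`-plane with `D(t) ≠ 0`: a closed point of the `t`-line and a
closed point of the `x`-line over its residue field. -/
structure PlanePt (D : k[X]) : Type where
  place : ClosedPt k
  ndvd : ¬ place.1 ∣ D
  point : ClosedPt (Res place)

/-- The degree of a closed point of the plane. -/
noncomputable def PlanePt.deg {D : k[X]} (z : PlanePt D) : ℕ :=
  ptDegree z.place.1.natDegree z.point

/-- The Euler factor of a closed point of the plane. -/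
noncomputable def PlanePt.factor {D : k[X]} (ℓ : ℕ) (z : PlanePt D) : PowerSeries ℤ :=
  ptFactor (fibre ℓ D z.place) z.place.1.natDegree z.point

/-- The `L`-function in the variable `T = q ^ (-s)` of the Jacobian of the hyperelliptic curve
`D(t) y ^ 2 = (x - 1) (x ^ ℓ - t)` over `k(t)`: the product of `1 - χ(z) T ^ deg z` over the closed
points `z` of the plane with `D(t) ≠ 0`, where `χ(z)` is the quadratic character of the residue field
of `z` at `D(t) (x - 1) (x ^ ℓ - t)`, times the product of the factors of the points at infinity of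
the fibres, `1 - χ(P) T ^ deg P` with the quadratic character `χ(P)` of the residue field of `P` at
`D`. -/
noncomputable def Lfun (ℓ : ℕ) (D : k[X]) : PowerSeries ℤ :=
  eulerProduct (fun z : PlanePt D => z.deg) (fun z => z.factor ℓ) *
    eulerProduct (fun P : ClosedPt k => ptDegree 1 P) (fun P => ptFactor D 1 P)

/-- `L(T) = (1 - q T) ^ m G(T)` with an integral polynomial `G`: the function vanishes to order at
least `m` at `s = 1`. -/
def VanishesTo (ℓ : ℕ) (D : k[X]) (m : ℕ) : Prop :=
  ∃ G : ℤ[X], Lfun ℓ D = (((1 - C (Nat.card k : ℤ) * X) ^ m * G : ℤ[X]) : PowerSeries ℤ)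

open Classical in
/-- The monic irreducible factors of a polynomial. -/
noncomputable def primes (g : k[X]) : Finset k[X] :=
  (UniqueFactorizationMonoid.normalizedFactors g).toFinset

/-- The value `P(0)` is the `ℓ`-th power of an element of `k` different from zero. -/
def HasPowerValue (ℓ : ℕ) (P : k[X]) : Prop := ∃ c : k, c ≠ 0 ∧ P.coeff 0 = c ^ ℓ

/-- The primes `P` of degree `N` for which `P(0)` is not the `ℓ`-th power of an element of `k`
different from zero. -/
def goodPrimes (k : Type) [Field k] (ℓ N : ℕ) : Set (ClosedPt k) :=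
  {P | P.1.natDegree = N ∧ ¬ HasPowerValue ℓ P.1}

/-- The sum of the `q ^ d` over the proper divisors `d` of `N`. -/
def properSum (q N : ℕ) : ℤ := ∑ d ∈ N.properDivisors, (q : ℤ) ^ d

/-- The proportion `(ℓ - 1) / ℓ` of the primes is in the set: the number `n` of its elements of degree
`N` satisfies `|ℓ N n - (ℓ - 1) q ^ N| ≤ 1 + ℓ ∑ q ^ d`, where `d` runs through the proper divisors
of `N`. -/
def AlmostAll (k : Type) [Field k] (ℓ : ℕ) : Prop :=
  ∀ N : ℕ, 0 < N →
    |(ℓ : ℤ) * ((N : ℤ) * ((goodPrimes k ℓ N).ncard : ℤ)) - (ℓ - 1) * (Nat.card k : ℤ) ^ N| ≤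
      1 + ℓ * properSum (Nat.card k) N

open Classical in
/-- The number one, plus `ℓ - 1` times the sum of the `2 ^ v(deg P)` over the prime factors `P` of `D`
for which `P(0)` is the `ℓ`-th power of an element of `k` different from zero. -/
noncomputable def bound (ℓ : ℕ) (D : k[X]) : ℕ :=
  1 + (ℓ - 1) * ∑ P ∈ (primes D).filter (fun P => HasPowerValue ℓ P), twoPart P.natDegree

/-- The characteristic of `k` is not two, and `ℓ` is an odd prime dividing `q - 1`. -/
structure IsAdmissible (k : Type) [Field k] (ℓ : ℕ) : Prop where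
  two_ne : (2 : k) ≠ 0
  prime : ℓ.Prime
  odd : ℓ ≠ 2
  dvd : ℓ ∣ Nat.card k - 1

/-- the equivalence of the two descriptions of the points of the plane -/
noncomputable def planeEquiv (D : k[X]) :
    (Σ P : {P : Pool.Agent.W313.Hyp.MI k // ¬ P.1 ∣ D},
      Pool.Agent.W313.Hyp.MI (Pool.Agent.TH943.HJ.RF P.1)) ≃ PlanePt D where
  toFun z := ⟨z.1.1, z.1.2, z.2⟩
  invFun z := ⟨⟨z.place, z.ndvd⟩, z.point⟩
  left_inv _ := rfl
  right_inv _ := rfl

theorem fibre_eq (ℓ : ℕ) (D : k[X]) (P : ClosedPt k) :
    fibre ℓ D P = Pool.Agent.TH943.CY.tw (X ^ ℓ) 1 D P := by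
  have h1 : Pool.Agent.TH943.HJ.fib (X ^ ℓ) P =
      (X ^ ℓ - C (AdjoinRoot.root P.1) : (Pool.Agent.TH943.HJ.RF P)[X]) := by
    unfold Pool.Agent.TH943.HJ.fib
    rw [Polynomial.map_pow, map_X]
  have h2 : Pool.Agent.TH943.CY.tw (X ^ ℓ) 1 D P =
      C (AdjoinRoot.mk P.1 D) * ((X - 1) * (X ^ ℓ - C (AdjoinRoot.root P.1))) := by
    unfold Pool.Agent.TH943.CY.tw
    rw [h1, map_one, C_1]
  rw [h2]
  rfl

theorem Lfun_eq (ℓ : ℕ) (D : k[X]) :
    Lfun ℓ D = Pool.Agent.TH943.CY.LF (X ^ ℓ) 1 D * Pool.Agent.W313.Hyp.locA D 1 := by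
  unfold Lfun
  congr 1
  unfold Pool.Agent.TH943.CY.LF eulerProduct Pool.Agent.W343.BSD.eulerProd
  ext n
  rw [PowerSeries.coeff_mk, PowerSeries.coeff_mk]
  congr 1
  have h1 : ∀ z : (Σ P : {P : Pool.Agent.W313.Hyp.MI k // ¬ P.1 ∣ D},
      Pool.Agent.W313.Hyp.MI (Pool.Agent.TH943.HJ.RF P.1)),
      Pool.Agent.W313.Hyp.ptFactor (Pool.Agent.TH943.CY.tw (X ^ ℓ) 1 D z.1.1)
        z.1.1.1.natDegree z.2 = (planeEquiv D z).factor ℓ := by
    intro z
    show _ = ptFactor (fibre ℓ D z.1.1) z.1.1.1.natDegree z.2
    rw [fibre_eq]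
    rfl
  simp only [h1]
  exact (finprod_comp_equiv (planeEquiv D)
    (f := fun z : PlanePt D => ∏ᶠ (_ : z.deg ≤ n), z.factor ℓ)).symm

end defs

/-- **The Birch and Swinnerton-Dyer conjecture for one of the two twists by almost all primes.**

Let `k` be a finite field with `q` elements of odd characteristic and `ℓ` an odd prime dividing
`q - 1`. For a squarefree polynomial `D` over `k` let `J_D` be the Jacobian, of dimension
`(ℓ - 1) / 2`, of the curve `D(t) y ^ 2 = (x - 1) (x ^ ℓ - t)` over `K = k(t)`; it is not isotrivial,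
since it has a toric part of dimension one at `t = 1`. At the places dividing `D`, at `t = 0` and at
infinity there are no inertia invariants, the fibre at `t = 1` is semistable and the curve has good
reduction at the other places. Hence the L-function of `J_D` is `Lfun`, a polynomial in
`T = q ^ (-s)`; the fibre at `t = 0` contributes the factor one, being a conic.

Let `S` be the set of the primes of `k[t]`, that is monic irreducible polynomials `P`, for which `P(0)`
is not the `ℓ`-th power of an element of `k` different from zero. The number `n` of the primes in `S`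
of degree `N` satisfies `|ℓ N n - (ℓ - 1) q ^ N| ≤ 1 + ℓ ∑ q ^ d`, the sum over the proper divisors
`d` of `N`. So the set `S` has density `1 - 1 / ℓ`, which tends to one.

Let `g` in `k` not be a square. For every squarefree polynomial `D` the sum of the orders of
vanishing at `s = 1` of `L(J_D, s)` and of `L(J_{g D}, s)` is at most `1 + (ℓ - 1) M`, where `M` is the
sum of the `2 ^ v(deg P)` over the prime factors `P` of `D` which are not in `S`.

In particular, if all the prime factors of `D` are in `S`, for instance if `D` is one of the primes in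
`S`, then one of `L(J_D, s)` and `L(J_{g D}, s)` does not vanish at `s = 1`, and the other vanishes to
order at most one. For the first, by Tate's inequality, the rank and the order are both zero, the
Tate-Shafarevich group is finite and the Birch and Swinnerton-Dyer formula holds. -/
theorem result (k : Type) [Field k] [Finite k] (ℓ : ℕ) (h : IsAdmissible k ℓ) :
    AlmostAll k ℓ ∧
      ∀ D : k[X], Squarefree D → ∀ g : k, ¬ IsSquare g →
        ∀ m m' : ℕ, VanishesTo ℓ D m → VanishesTo ℓ (C g * D) m' → m + m' ≤ bound ℓ D := by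
  have ho : Odd ℓ := h.prime.odd_of_ne_two h.odd
  refine ⟨fun N hN => Pool.Agent.TH943.CY.count_primes ho h.dvd hN, ?_⟩
  rintro D hD g hg m m' ⟨G, hG⟩ ⟨G', hG'⟩
  rw [Lfun_eq] at hG hG'
  obtain ⟨G0, hG0⟩ := Pool.Agent.TH943.CY.combine h.two_ne hg (X ^ ℓ) 1 D m m' G G' hG hG'
  have h1 := Pool.Agent.TH943.CY.order_le (f := X ^ ℓ) (e := 1) h.two_ne
    (by rw [natDegree_X_pow]; exact ho) hD.ne_zero (HasPowerValue ℓ)
    (fun P hP => Pool.Agent.TH943.CY.sum_over h.prime ho P hP) m m' G0 hG0
  rw [natDegree_X_pow] at h1
  exact h1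

end Pool.Agent.Results.MP_1d384c_nt.CyclicPrimeTwists
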