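import Pool.Agent.TH943.HJ.Ex

/-!
The rank part of the Birch and Swinnerton-Dyer conjecture for quadratic twists of the Jacobians of
the curves `y ^ 2 = f(x) - t` over `k(t)`.
-/

set_option autoImplicit false
set_option maxHeartbeats 1000000

open Polynomial

namespace Pool.Agent.Results.MP_1d384c_nt.TwistsOfPolynomialFamilies

/-- The closed points of the affine line over the field `F`: monic irreducible polynomials. -/
abbrev ClosedPt (F : Type) [Field F] : Type := {P : F[X] // P.Monic ∧ Irreducible P}

section generic

variable {F : Type} [Field F]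

/-- The polynomial `d (g(x) - τ)`. -/
noncomputable def twisted (g : F[X]) (d τ : F) : F[X] := C d * (g - C τ)

open Classical in
/-- The quadratic character of the field `F[x] / (Q)` at the class of `h`. -/
noncomputable def quadChar (h Q : F[X]) : ℤ :=
  if Q ∣ h then 0 else if ∃ s : F[X], Q ∣ h - s ^ 2 then 1 else -1

/-- The degree of the closed point `Q` of the line over a field `F` of degree `d`. -/
noncomputable def ptDegree (d : ℕ) (Q : ClosedPt F) : ℕ := d * Q.1.natDegree

/-- The Euler factor `1 - χ T ^ n`, where `χ` is the value of the quadratic character of the residue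
field of `Q` at `h`, and `n` is the degree of `Q`. -/
noncomputable def ptFactor (h : F[X]) (d : ℕ) (Q : ClosedPt F) : PowerSeries ℤ :=
  1 - PowerSeries.C (quadChar h Q.1) * PowerSeries.X ^ ptDegree d Q

/-- The coordinate ring of the affine curve `y ^ 2 = g(x)` over the field `F`. -/
def CoordRing (g : F[X]) : Type := AdjoinRoot (X ^ 2 - C g : F[X][X])

noncomputable instance coordCommRing (g : F[X]) : CommRing (CoordRing g) :=
  AdjoinRoot.instCommRing (X ^ 2 - C g : F[X][X])

end generic

/-- `A` is a Dedekind domain whose class group has rank at least `r`. -/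
def HasClassRank (A : Type) [CommRing A] (r : ℕ) : Prop :=
  ∃ _ : IsDedekindDomain A, (r : Cardinal) ≤ Module.rank ℤ (Additive (ClassGroup A))

/-- The Euler product: its coefficient of index `n` is that of the product of the factors of degree
at most `n`. -/
noncomputable def eulerProduct {ι : Type} (d : ι → ℕ) (f : ι → PowerSeries ℤ) : PowerSeries ℤ :=
  PowerSeries.mk fun n => PowerSeries.coeff n (∏ᶠ (i : ι) (_ : d i ≤ n), f i)

section defs

variable {k : Type} [Field k]

/-- The residue field of the closed point `P` of the `t`-line. -/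
def Res (P : ClosedPt k) : Type := AdjoinRoot P.1

noncomputable instance resField (P : ClosedPt k) : Field (Res P) :=
  @AdjoinRoot.instField k _ P.1 ⟨P.2.2⟩

/-- The value at `P` of a polynomial in `t`. -/
noncomputable def value (P : ClosedPt k) (g : k[X]) : Res P := AdjoinRoot.mk P.1 g

/-- The inclusion of the constants in the residue field. -/
noncomputable def constants (P : ClosedPt k) : k →+* Res P := AdjoinRoot.of P.1

/-- The polynomial `D(t) (f(x) - t)` in `x` over the residue field of the closed point `P`. -/
noncomputable def fibre (f D : k[X]) (P : ClosedPt k) : (Res P)[X] :=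
  twisted (f.map (constants P)) (value P D) (value P X)

/-- The closed points of the `(t, x)`-plane with `D(t) ≠ 0`: a closed point of the `t`-line and a
closed point of the `x`-line over its residue field. -/
structure PlanePt (D : k[X]) : Type where
  place : ClosedPt k
  ndvd : ¬ place.1 ∣ D
  point : ClosedPt (Res place)

/-- The degree of a closed point of the plane. -/
noncomputable def PlanePt.deg {D : k[X]} (z : PlanePt D) : ℕ :=
  ptDegree z.place.1.natDegree z.point

/-- The Euler factor of a closed point of the plane. -/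
noncomputable def PlanePt.factor {D : k[X]} (f : k[X]) (z : PlanePt D) : PowerSeries ℤ :=
  ptFactor (fibre f D z.place) z.place.1.natDegree z.point

/-- The `L`-function in the variable `T = q ^ (-s)` of the Jacobian of the curve
`D(t) y ^ 2 = f(x) - t` over `k(t)`: the product of `1 - χ(z) T ^ deg z` over the closed points `z`
of the plane with `D(t) ≠ 0`, where `χ(z)` is the quadratic character of the residue field of `z`
at `D(t) (f(x) - t)`. -/
noncomputable def Lfun (f D : k[X]) : PowerSeries ℤ :=
  eulerProduct (fun z : PlanePt D => z.deg) (fun z => z.factor f)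

/-- `L(T) = (1 - q T) ^ m G(T)` with an integral polynomial `G`: the function vanishes to order at
least `m` at `s = 1`. -/
def VanishesTo (f D : k[X]) (m : ℕ) : Prop :=
  ∃ G : ℤ[X], Lfun f D = (((1 - C (Nat.card k : ℤ) * X) ^ m * G : ℤ[X]) : PowerSeries ℤ)

/-- The right hand side of the equation `y ^ 2 = D(t) (f(x) - t)` over `k(t)`. -/
noncomputable def rhs (f D : k[X]) : (RatFunc k)[X] :=
  twisted (f.map (algebraMap k (RatFunc k))) (algebraMap k[X] (RatFunc k) D) RatFunc.X

/-- The rank of the Jacobian of `D(t) y ^ 2 = f(x) - t` over `k(t)` is at least `r`. For `f` of odd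
degree the complete curve has one point more than the affine curve `y ^ 2 = D(t) (f(x) - t)`, which is
rational, so that the class group of the coordinate ring of the affine curve is the group of the
rational points of the Jacobian. -/
def RankAtLeast (f D : k[X]) (r : ℕ) : Prop := HasClassRank (CoordRing (rhs f D)) r

open Classical in
/-- The monic irreducible factors of a polynomial. -/
noncomputable def primes (g : k[X]) : Finset k[X] :=
  (UniqueFactorizationMonoid.normalizedFactors g).toFinset

/-- The greatest power of two dividing `n`. -/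
def twoPart (n : ℕ) : ℕ := 2 ^ padicValNat 2 n

/-- The polynomial `M(t) ^ 2 (f(x) - t) - D(t) B(t) ^ 2` in `x` over `k[t]`. -/
noncomputable def shifted (f D M B : k[X]) : k[X][X] :=
  C (M ^ 2) * (f.map C - C X) - C (D * B ^ 2)

/-- `M(t) ^ 2 (f(x) - t) - D(t) B(t) ^ 2` is the product of the polynomials `G j` of positive degree
in `x` over `k[t]`, where `B ≠ 0` and some prime factor of `D` does not divide `M`. In other words the
polynomial `f(x) - t - D b ^ 2` over `k(t)`, where `b = B / M`, has the factors `G j`, and `b` is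
regular at some place dividing `D`. -/
structure IsSplitting (f D M B : k[X]) {J : Type} [Fintype J] (G : J → k[X][X]) : Prop where
  regular : ∃ P : k[X], Irreducible P ∧ P ∣ D ∧ ¬ P ∣ M
  ne_zero : B ≠ 0
  pos : ∀ j, 0 < (G j).natDegree
  prod : ∏ j, G j = shifted f D M B

/-- The Dickson polynomial, with value `w ^ n + w ^ (-n)` at `w + w ^ (-1)`. -/
noncomputable def dick (k : Type) [Field k] (n : ℕ) : k[X] := dickson 1 (1 : k) n

/-- The polynomial `c ^ (2 n) a ^ (4 n) + b ^ (4 n) - t c ^ n a ^ (2 n) b ^ (2 n)` in `t`. -/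
noncomputable def twist (n : ℕ) (c a b : k[X]) : k[X] :=
  c ^ (2 * n) * a ^ (4 * n) + b ^ (4 * n) - X * c ^ n * a ^ (2 * n) * b ^ (2 * n)

/-- The order of vanishing at `s = 1` is at most `r`. -/
def OrderAtMost (f D : k[X]) (r : ℕ) : Prop := ∀ m : ℕ, VanishesTo f D m → m ≤ r

/-- The characteristic of `k` is not two, `f` is monic of odd degree, `D` is squarefree and `D(f(x))`
is prime to the derivative of `f`. -/
structure IsAdmissible (f D : k[X]) : Prop where
  two_ne : (2 : k) ≠ 0
  monic : f.Monic
  odd : Odd f.natDegree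
  squarefree : Squarefree D
  coprime : IsCoprime (D.comp f) (derivative f)

/-- The upper bound for the order: if the `L`-function vanishes to order at least `m` at `s = 1` then
`m + ∑ 2 ^ v(deg P) ≤ ∑ 2 ^ v(deg R)`, where `P` runs through the prime factors of `D` and `R`
through the prime factors of the polynomials `P(f(x))`. -/
def OrderBound (f D : k[X]) : Prop :=
  ∀ m : ℕ, VanishesTo f D m → m + ∑ P ∈ primes D, twoPart P.natDegree ≤
    ∑ P ∈ primes D, ∑ R ∈ primes (P.comp f), twoPart R.natDegree

/-- The lower bound for the rank: it is at least `r - 1` if `f(x) - t - D b ^ 2` has `r` factors for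
some `b` which is regular at some place dividing `D`. -/
def RankBound (f D : k[X]) : Prop :=
  ∀ (J : Type) [Fintype J] (M B : k[X]) (G : J → k[X][X]), IsSplitting f D M B G →
    RankAtLeast f D (Fintype.card J - 1)

/-- The polynomial `D = c R`, `R = twist n c a b`. -/
noncomputable def dickTwist (n : ℕ) (c a b : k[X]) : k[X] := c * twist n c a b

/-- The conditions on the data for the twists of the Dickson family: the characteristic of `k` is not
two, `n` is odd, `ζ` is a primitive `n`-th root of unity, `deg c + 2 deg a = 2 deg b`,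
`R = twist n c a b` is irreducible, `D = c R` is squarefree and does not vanish at `2` and `-2`, and
`Q(f(x))` is irreducible for the prime factors `Q` of `c`, where `f` is the Dickson polynomial. -/
structure IsDickData (n : ℕ) (ζ : k) (c a b : k[X]) : Prop where
  two_ne : (2 : k) ≠ 0
  odd : Odd n
  prim : IsPrimitiveRoot ζ n
  hc : c ≠ 0
  ha : a ≠ 0
  hb : b ≠ 0
  deg : c.natDegree + 2 * a.natDegree = 2 * b.natDegree
  irreducible : Irreducible (twist n c a b)
  squarefree : Squarefree (dickTwist n c a b)
  two : (dickTwist n c a b).eval 2 ≠ 0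
  neg_two : (dickTwist n c a b).eval (-2) ≠ 0
  inert : ∀ Q ∈ primes c, Irreducible (Q.comp (dick k n))

/-- The polynomial `D` of degree `13` given by `n = 3`, `c = 1`, `a = t + 4`, `b = 3 t + 1`. -/
noncomputable def example13 (k : Type) [Field k] : k[X] := twist 3 1 (X + C 4) (C 3 * X + 1)

/-- the equivalence of the two descriptions of the points of the plane -/
noncomputable def planeEquiv (D : k[X]) :
    (Σ P : {P : Pool.Agent.W313.Hyp.MI k // ¬ P.1 ∣ D},
      Pool.Agent.W313.Hyp.MI (Pool.Agent.TH943.HJ.RF P.1)) ≃ PlanePt D where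
  toFun z := ⟨z.1.1, z.1.2, z.2⟩
  invFun z := ⟨⟨z.place, z.ndvd⟩, z.point⟩
  left_inv _ := rfl
  right_inv _ := rfl

theorem Lfun_eq (f D : k[X]) : Lfun f D = Pool.Agent.TH943.HJ.LF f D := by
  unfold Lfun Pool.Agent.TH943.HJ.LF eulerProduct Pool.Agent.W343.BSD.eulerProd
  ext n
  rw [PowerSeries.coeff_mk, PowerSeries.coeff_mk]
  congr 1
  exact (finprod_comp_equiv (planeEquiv D)
    (f := fun z : PlanePt D => ∏ᶠ (_ : z.deg ≤ n), z.factor f)).symm

end defs

theorem rank_of_split {k J : Type} [Field k] [PerfectField k] [Fintype J]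
    {f D M B : k[X]} {P : Pool.Agent.W313.Hyp.MI k} {G : J → k[X][X]} (hm : f.Monic)
    (h2 : (2 : k) ≠ 0) (hodd : Odd f.natDegree) (h : Pool.Agent.TH943.HJ.Split f P D M B G) :
    RankAtLeast f D (Fintype.card J - 1) := by
  obtain ⟨h1, h3⟩ := h.rank hm h2 hodd
  have h1' : IsDedekindDomain (CoordRing (rhs f D)) := h1
  refine ⟨h1', ?_⟩
  change (Fintype.card J : Cardinal) ≤
    Module.rank ℤ (Additive (ClassGroup (CoordRing (rhs f D)))) + 1 at h3
  rcases Nat.eq_zero_or_pos (Fintype.card J) with h0 | h0
  · rw [h0]
    exact_mod_cast (zero_le (a := _))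
  · have h4 : ((Fintype.card J - 1 : ℕ) : Cardinal) + 1 = (Fintype.card J : Cardinal) := by
      have : Fintype.card J - 1 + 1 = Fintype.card J := by omega
      exact_mod_cast this
    rw [← h4] at h3
    exact (Cardinal.add_one_le_add_one_iff).1 h3

theorem lead_of_prod {k J : Type} [Field k] [Fintype J] {f D M B : k[X]} {G : J → k[X][X]}
    (hm : f.Monic) (hf : 0 < f.natDegree) (hM : M ≠ 0)
    (h : ∏ j, G j = C (M ^ 2) * (f.map C - C X) - C (D * B ^ 2)) :
    ∏ j, (G j).leadingCoeff = M ^ 2 := by
  rw [← leadingCoeff_prod, h]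
  have h2 : (C (M ^ 2) * (f.map C - C X) : k[X][X]).leadingCoeff = M ^ 2 := by
    rw [leadingCoeff_mul, (Pool.Agent.TH943.HJ.monic_curve hf hm).leadingCoeff, leadingCoeff_C,
      mul_one]
  have h3 : (C (M ^ 2) * (f.map C - C X) : k[X][X]).natDegree = f.natDegree := by
    rw [natDegree_C_mul (pow_ne_zero 2 hM), natDegree_sub_C,
      natDegree_map_eq_of_injective C_injective]
  rw [leadingCoeff_sub_of_degree_lt, h2]
  refine lt_of_le_of_lt degree_C_le ?_
  apply natDegree_pos_iff_degree_pos.1
  rw [h3]
  exact hf

theorem rankAtLeast_of {k J : Type} [Field k] [PerfectField k] [Fintype J] {f D M B : k[X]}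
    {G : J → k[X][X]} (hm : f.Monic) (h2 : (2 : k) ≠ 0) (hodd : Odd f.natDegree)
    (hD : Squarefree D) (hs : IsCoprime (D.comp f) (derivative f)) (h : IsSplitting f D M B G) :
    RankAtLeast f D (Fintype.card J - 1) := by
  obtain ⟨P0, hP0, hPD, hPM⟩ := h.regular
  obtain ⟨P, δ, hδ, hP⟩ := Pool.Agent.TH943.HJ.exists_MI_eq hP0
  have hu : IsUnit (C δ : k[X]) := isUnit_C.2 (isUnit_iff_ne_zero.2 hδ)
  have hdiv : ∀ c : k[X], P0 ∣ c ↔ P.1 ∣ c := fun c => by
    rw [hP]
    exact hu.mul_left_dvd
  rw [hdiv] at hPD hPM
  have hM : M ≠ 0 := by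
    rintro rfl
    exact hPM (dvd_zero _)
  have hlead := lead_of_prod hm hodd.pos hM h.prod
  obtain ⟨u, hu'⟩ := hPD
  refine rank_of_split (P := P) hm h2 hodd
    ⟨hodd.pos, ?_, ⟨u, by rw [pow_one]; exact hu', ?_⟩, hPM, h.ne_zero, h.prod, fun j => ?_⟩
  · rw [hu', mul_comp] at hs
    exact hs.of_mul_left_left
  · intro hd
    have h3 : P.1 * P.1 ∣ D := by
      rw [hu']
      exact mul_dvd_mul_left _ hd
    exact P.2.2.not_isUnit (hD P.1 h3)
  · have h4 : ¬ P.1 ∣ (G j).leadingCoeff := by
      intro hd
      have h5 : P.1 ∣ ∏ j, (G j).leadingCoeff := hd.trans (Finset.dvd_prod_of_mem _ (Finset.mem_univ j))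
      rw [hlead] at h5
      exact hPM (P.2.2.prime.dvd_of_dvd_pow h5)
    have h6 : (Pool.Agent.TH943.HJ.rd P (G j)).natDegree = (G j).natDegree := by
      unfold Pool.Agent.TH943.HJ.rd
      rw [coe_mapRingHom]
      apply natDegree_map_of_leadingCoeff_ne_zero
      rw [Ne, AdjoinRoot.mk_eq_zero]
      exact h4
    rw [h6]
    exact h.pos j

theorem dick_case {k : Type} [Field k] [Finite k] (h2 : (2 : k) ≠ 0) (n : ℕ) (ζ : k) (hn : Odd n)
    (hζ : IsPrimitiveRoot ζ n) (c a b : k[X]) (hc : c ≠ 0) (ha : a ≠ 0) (hb : b ≠ 0)
    (hab : c.natDegree + 2 * a.natDegree = 2 * b.natDegree) (hR : Irreducible (twist n c a b))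
    (hsq : Squarefree (c * twist n c a b)) (hR1 : (c * twist n c a b).eval 2 ≠ 0)
    (hR2 : (c * twist n c a b).eval (-2) ≠ 0)
    (hirr : ∀ Q ∈ primes c, Irreducible (Q.comp (dick k n))) :
    RankAtLeast (dick k n) (c * twist n c a b) (n - 1) ∧
      ∀ m, VanishesTo (dick k n) (c * twist n c a b) m → m ≤ n - 1 := by
  have hm : (dick k n).Monic := Pool.Agent.TH943.HJ.Dn_monic hn.pos
  have hd : (dick k n).natDegree = n := Pool.Agent.TH943.HJ.Dn_natDegree hn.pos
  have hs : IsCoprime ((c * twist n c a b).comp (dick k n)) (derivative (dick k n)) :=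
    Pool.Agent.TH943.HJ.Dn_sep hζ hn hR1 hR2
  have hodd : Odd (dick k n).natDegree := by rw [hd]; exact hn
  obtain ⟨P, δ, hδ, hP⟩ := Pool.Agent.TH943.HJ.exists_MI_eq hR
  have hu : IsUnit (C δ : k[X]) := isUnit_C.2 (isUnit_iff_ne_zero.2 hδ)
  have hPc : ¬ P.1 ∣ c := by
    intro hd
    have h3 : P.1 * P.1 ∣ c * twist n c a b := by
      rw [hP]
      exact mul_dvd_mul hd (dvd_mul_left _ _)
    exact P.2.2.not_isUnit (hsq P.1 h3)
  rw [eval_mul] at hR1 hR2
  constructor
  · have hsp := Pool.Agent.TH943.HJ.split_dick (b := b) hζ hn hc ha P hδ hP hPc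
      (right_ne_zero_of_mul hR1) (right_ne_zero_of_mul hR2)
    have h4 := rank_of_split hm h2 hodd hsp
    rwa [Pool.Agent.TH943.HJ.card_Mu hζ] at h4
  · rintro m ⟨G, hG⟩
    have hdeg : P.1.natDegree = 4 * n * b.natDegree + 1 := by
      have h5 : (twist n c a b).natDegree = 4 * n * b.natDegree + 1 :=
        Pool.Agent.TH943.HJ.natDegree_RR hn.pos hc ha hb hab
      rw [hP, natDegree_C_mul hδ] at h5
      exact h5
    have hPo : Odd P.1.natDegree := by
      rw [hdeg]
      exact ⟨2 * n * b.natDegree, by ring⟩
    have hPm : P.1 ∈ primes (c * twist n c a b) := by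
      refine (Pool.Agent.TH943.HJ.mem_primes hsq.ne_zero _).2 ⟨P.2.1, P.2.2, ?_⟩
      rw [hP]
      exact (dvd_mul_left _ _).mul_left _
    have h6 := Pool.Agent.TH943.HJ.upper_one h2 hm hodd hsq hs hPm hPo (fun Q hQ hne => by
      have h7 := (Pool.Agent.TH943.HJ.mem_primes hsq.ne_zero Q).1 hQ
      refine hirr Q ((Pool.Agent.TH943.HJ.mem_primes hc Q).2 ⟨h7.1, h7.2.1, ?_⟩)
      rcases h7.2.1.prime.dvd_or_dvd h7.2.2 with h8 | h8
      · exact h8
      · exfalso
        apply hne
        rw [hP, hu.dvd_mul_left] at h8
        exact eq_of_monic_of_associated h7.1 P.2.1 (h7.2.1.associated_of_dvd P.2.2 h8)) m G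
      (by rw [← Lfun_eq, hG])
    rw [hd] at h6
    omega

/-- **The rank part of the Birch and Swinnerton-Dyer conjecture for twists of the Jacobians of
`y ^ 2 = f(x) - t`.**

Let `k` be a finite field of odd characteristic with `q` elements, `f` a monic polynomial over `k` of
odd degree `n = 2 g + 1`, `D` a squarefree polynomial over `k` such that `D(f(x))` is prime to
`f'(x)`, and `J_D` the Jacobian, of dimension `g`, of the curve `D(t) y ^ 2 = f(x) - t` over
`K = k(t)`. At the places dividing `D` and at infinity the inertia invariants of the Tate module of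
`J_D` are zero, at the other places the model is regular, so that the L-function of `J_D` is `Lfun`;
it is a polynomial if `D` is not constant. Tate's inequality says that the rank of `J_D(K)` is at most
the order of vanishing of `L(J_D, s)` at `s = 1`.

The theorem consists of an upper bound for the order of vanishing, and a lower bound for the rank. If
`L(J_D, s)` vanishes to order at least `m`, then `m + ∑ 2 ^ v(deg P) ≤ ∑ 2 ^ v(deg R)`, where `P` runs
through the prime factors of `D`, `R` through the prime factors of the polynomials `P(f(x))` and `v`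
is the `2`-adic valuation. If for some `b` in `K`, regular at some place dividing `D`, the polynomial
`f(x) - t - D b ^ 2` is the product of `r` factors over `K`, then the rank of `J_D(K)` is at least
`r - 1`. When the two bounds agree the rank and the order are equal. So the order and the rank are
zero if all the `P(f(x))` are irreducible, and they are both equal to `r - 1` for instance if all
prime factors `P` of `D` but one have `P(f(x))` irreducible, and the last one has odd degree and
`P(f(x))` is the product of `r` factors of odd degree.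

The second part gives a family for every odd `n` where this happens, with the largest possible value
`n - 1 = 2 g`. Let `f` be the Dickson polynomial of degree `n`, let `k` contain the `n`-th roots of
unity, and let `a`, `b`, `c` be polynomials over `k` with `deg c + 2 deg a = 2 deg b` such that
`R = c ^ (2 n) a ^ (4 n) + b ^ (4 n) - t c ^ n a ^ (2 n) b ^ (2 n)` is irreducible, `D = c R` is
squarefree and not zero at `2` and `-2`, and `Q(f(x))` is irreducible for the prime factors `Q` of
`c` (for instance `c = 1`). Then the rank of `J_D(K)` is at least `n - 1`, and the order is at most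
`n - 1`.

The third part is an example: for all finite fields of characteristic `7` and degree prime to `13` the
polynomial `R` of degree `13` given by `n = 3`, `c = 1`, `a = t + 4`, `b = 3 t + 1` is irreducible, so
that the rank and the order are both equal to two. -/
theorem result :
    (∀ (k : Type) [Field k] [Finite k] (f D : k[X]), IsAdmissible f D →
      OrderBound f D ∧ RankBound f D) ∧
    (∀ (k : Type) [Field k] [Finite k] (n : ℕ) (ζ : k) (c a b : k[X]), IsDickData n ζ c a b →
      RankAtLeast (dick k n) (dickTwist n c a b) (n - 1) ∧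
        OrderAtMost (dick k n) (dickTwist n c a b) (n - 1)) ∧
    (∀ (k : Type) [Field k] [Finite k] [CharP k 7] (N : ℕ), Nat.card k = 7 ^ N → ¬ 13 ∣ N →
      Irreducible (example13 k) ∧ RankAtLeast (dick k 3) (example13 k) 2 ∧
        OrderAtMost (dick k 3) (example13 k) 2) := by
  refine ⟨?_, ?_, ?_⟩
  · intro k _ _ f D hf
    refine ⟨?_, fun J _ M B G hG =>
      rankAtLeast_of hf.monic hf.two_ne hf.odd hf.squarefree hf.coprime hG⟩
    rintro m ⟨G, hG⟩
    exact Pool.Agent.TH943.HJ.upper hf.two_ne hf.odd.pos hf.squarefree.ne_zero m G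
      (by rw [← Lfun_eq, hG])
  · intro k _ _ n ζ c a b h
    exact dick_case h.two_ne n ζ h.odd h.prim c a b h.hc h.ha h.hb h.deg h.irreducible h.squarefree
      h.two h.neg_two h.inert
  · intro k _ _ _ N hN h13
    have hirr : Irreducible (twist 3 1 (X + C 4) (C 3 * X + 1) : k[X]) :=
      Pool.Agent.TH943.HJ.Ex.irr k N hN h13
    have cast_ne : ∀ j : ℕ, ¬ 7 ∣ j → ((j : ℕ) : k) ≠ 0 := by
      intro j hj h
      rw [CharP.cast_eq_zero_iff k 7] at h
      exact hj h
    have h2 : (2 : k) ≠ 0 := by exact_mod_cast cast_ne 2 (by omega)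
    have h3 : (3 : k) ≠ 0 := by exact_mod_cast cast_ne 3 (by omega)
    have h7 : (7 : k) = 0 := by exact_mod_cast CharP.cast_eq_zero k 7
    have hb : (C 3 * X + 1 : k[X]).natDegree = 1 := by
      rw [← C_1]
      exact natDegree_linear h3
    have ha : (X + C 4 : k[X]).natDegree = 1 := natDegree_X_add_C 4
    have hb0 : (C 3 * X + 1 : k[X]) ≠ 0 := by
      intro h
      rw [h] at hb
      simp at hb
    have ha0 : (X + C 4 : k[X]) ≠ 0 := by
      intro h
      rw [h] at ha
      simp at ha
    have hζ : IsPrimitiveRoot (2 : k) 3 := by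
      have : Fact (Nat.Prime 3) := ⟨Nat.prime_three⟩
      have h5 : orderOf (2 : k) = 3 := by
        apply orderOf_eq_prime
        · linear_combination h7
        · intro h
          have : (1 : k) = 0 := by linear_combination h
          exact one_ne_zero this
      rw [← h5]
      exact IsPrimitiveRoot.orderOf _
    have hdeg : (twist 3 1 (X + C 4) (C 3 * X + 1) : k[X]).natDegree = 13 := by
      have h6 := Pool.Agent.TH943.HJ.natDegree_RR (k := k) (n := 3) (by norm_num) one_ne_zero ha0
        hb0 (by rw [natDegree_one, ha, hb])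
      rw [hb] at h6
      exact h6
    have hroot : ∀ x : k, (twist 3 1 (X + C 4) (C 3 * X + 1) : k[X]).eval x ≠ 0 := by
      intro x hx
      have h8 : (twist 3 1 (X + C 4) (C 3 * X + 1) : k[X]).natDegree = 1 :=
        natDegree_eq_of_degree_eq_some (degree_eq_one_of_irreducible_of_root hirr hx)
      rw [hdeg] at h8
      omega
    have hfin := dick_case h2 3 2 (by decide) hζ 1 _ _ one_ne_zero ha0 hb0
      (by rw [natDegree_one, ha, hb]) hirr (by rw [one_mul]; exact hirr.squarefree)
      (by rw [one_mul]; exact hroot _) (by rw [one_mul]; exact hroot _) (fun Q hQ => by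
        have h9 := (Pool.Agent.TH943.HJ.mem_primes (one_ne_zero (α := k[X])) Q).1 hQ
        exact absurd (isUnit_of_dvd_one h9.2.2) h9.2.1.not_isUnit)
    rw [one_mul] at hfin
    exact ⟨hirr, hfin⟩

end Pool.Agent.Results.MP_1d384c_nt.TwistsOfPolynomialFamilies
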